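import Pool.Agent.T9h75.SO.Spec

/-!
# Piece gap: every pair owns positions in all large polynomial ranges
-/

set_option autoImplicit false

namespace Pool.Agent.T9h95.SO

open Pool.Agent.T9h75.SO

theorem own_eq {s e : ℕ} (h : e ≤ s + s) : own (s * s + e) = e := by
  unfold own
  rw [Nat.sqrt_add_eq s h]
  omega

theorem gap : S_gap := by
  intro e M hM
  set m := Nat.size M with hm
  have h1 : M < 2 ^ m := Nat.lt_size_self M
  have hm1 : 1 ≤ m := by
    rcases Nat.eq_zero_or_pos m with h | h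
    · rw [h] at h1
      simp at h1
      omega
    · exact h
  have h2 : 2 ^ (m - 1) ≤ M := Nat.lt_size.mp (by omega)
  have h3 : 2 ^ (2 * m) ≤ 4 * M ^ 2 := by
    have e1 : 2 ^ (2 * m) = 4 * (2 ^ (m - 1)) ^ 2 := by
      rw [← pow_mul]
      have : 2 * m = (m - 1) * 2 + 2 := by omega
      rw [this, pow_add]
      ring
    rw [e1]
    exact Nat.mul_le_mul_left 4 (Nat.pow_le_pow_left h2 2)
  have hex : ∃ s, e ≤ s ∧ m ≤ s * s + e := ⟨e + m, by omega, by nlinarith⟩
  obtain ⟨hs1, hs2⟩ := Nat.find_spec hex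
  set s := Nat.find hex with hs
  refine ⟨s * s + e, own_eq (by omega), h1.trans_le (Nat.pow_le_pow_right (by norm_num) hs2), ?_⟩
  rcases eq_or_lt_of_le hs1 with h | h
  · have e1 : s * s + e = e ^ 2 + e := by rw [← h]; ring
    rw [e1]
    omega
  · have hlt := Nat.find_min hex (m := s - 1) (by omega)
    have h4 : (s - 1) * (s - 1) + e < m := by
      by_contra hcon
      exact hlt ⟨by omega, by omega⟩
    obtain ⟨r, hr⟩ : ∃ r, s = r + 1 := ⟨s - 1, by omega⟩
    have h5 : s * s + e ≤ 2 * m := by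
      rw [hr, Nat.add_sub_cancel] at h4
      rw [hr]
      have h6 : 2 * r ≤ r * r + 1 := by nlinarith [sq_nonneg ((r : ℤ) - 1)]
      nlinarith
    calc 2 ^ (s * s + e) ≤ 2 ^ (2 * m) := Nat.pow_le_pow_right (by norm_num) h5
      _ ≤ 4 * M ^ 2 := h3
      _ ≤ 4 * M ^ 2 + 2 ^ (e ^ 2 + e) := Nat.le_add_right _ _

end Pool.Agent.T9h95.SO
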