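import Pool.Agent.T9h75.SO.Spec

/-!
# Piece hard
-/

set_option autoImplicit false

namespace Pool.Agent.T9h95.SO

open Turing Computability N68a2faeb N793a5b8e Pool.Agent.H583R2
open Pool.Agent.T9h49.SC hiding found act stp st upd badN RK RN KK NN Good
open Pool.Agent.T9h21.UB
open Pool.Agent.T9h75.SO

theorem lg_mono {a b : ℕ} (h : a ≤ b) : lg a ≤ lg b := Nat.size_le_size h

theorem lg_le {a J : ℕ} (h : a < 2 ^ J) : lg a ≤ J := Nat.size_le.mpr h

theorem hard (hnf : S_nf) (hpf : S_pf) (hgap : S_gap) : S_hard := by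
  intro cd hcd K hK L hL hLc
  obtain ⟨L1, a1, hL1, hn1⟩ := hnf (tt cd) L hL
  obtain ⟨L2, a2, hL2, hn2⟩ := hnf (tt cd) Lᶜ hLc
  obtain ⟨c1, k1, h1⟩ := np_nf hL1
  obtain ⟨c2, k2, h2⟩ := np_nf hL2
  obtain ⟨p1, -, -, -, p5, -⟩ := hpf
  set k := max (max a1 a2) (max k1 k2) with hk
  have ha1 : a1 ≤ k := (le_max_left _ _).trans (le_max_left _ _)
  have ha2 : a2 ≤ k := (le_max_right _ _).trans (le_max_left _ _)
  have hk1 : k1 ≤ k := (le_max_left _ _).trans (le_max_right _ _)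
  have hk2 : k2 ≤ k := (le_max_right _ _).trans (le_max_right _ _)
  obtain ⟨e, he⟩ := exists_ix (c1, c2, k)
  -- the pair `e` on `x`
  have hyy : ∀ x m, lg (tm k x) ≤ m → yy e x (pr (tt cd) m) = eP x (pr (tt cd) (lg (tm k x))) := by
    intro x m hm
    unfold yy
    rw [he, pr_take _ hm]
  have hA1 : ∀ x m, lg (tm k x) ≤ m →
      (Acc (ix e).1 (ix e).2.2 (yy e x (pr (tt cd) m)) ↔ L x = true) := by
    intro x m hm
    rw [hyy x m hm, he]
    rw [← h1 k hk1, hn1 x (tm k x) (Nat.pow_le_pow_right (by omega) ha1)]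
  have hA2 : ∀ x m, lg (tm k x) ≤ m →
      (Acc (ix e).2.1 (ix e).2.2 (yy e x (pr (tt cd) m)) ↔ L x = false) := by
    intro x m hm
    rw [hyy x m hm, he]
    have h3 : Lᶜ x = true ↔ L x = false := by simp
    rw [← h2 k hk2, ← h3, hn2 x (tm k x) (Nat.pow_le_pow_right (by omega) ha2)]
  have hnotFail : ∀ x m, lg (tm k x) ≤ m → ¬ Fail e x (pr (tt cd) m) := by
    intro x m hm hF
    unfold Fail at hF
    rw [hA1 x m hm, hA2 x m hm] at hF
    cases hx : L x <;> simp [hx] at hF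
  have htm : ∀ x, tm k x ≤ Q e x := by
    intro x
    have := p5 e x
    rwa [he] at this
  -- no record
  have hrec : ∀ J, own J = e → tt cd J = false := by
    intro J hJ
    unfold tt dec
    rw [decide_eq_false_iff_not]
    rintro ⟨-, -, x, hx1, hx2⟩
    rw [hJ] at hx1 hx2
    rw [pfx_eq] at hx2
    exact hnotFail x J (lg_le ((htm x).trans_lt hx1)) hx2
  -- the reduction
  obtain ⟨m₀, hm₀⟩ := hcd e
  set NN : List Bool → ℕ := fun x => 4 * (Q e x + m₀ + 1) ^ 2 + 2 ^ (e ^ 2 + e) with hNN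
  have hQpf : PF (fun x : List Bool => Q e x) := by
    unfold Q tm
    exact PF.add (PF.length PF.id) (pf_powK (PF.add (PF.add (PF.mul (PF.const 6)
      (PF.length PF.id)) (PF.const 3)) (PF.mul (PF.const 3)
      (p1.comp (pf_powK (PF.add (PF.length PF.id) (PF.const 2)) _)))) _)
  have hNpf : PF NN := by
    exact PF.add (PF.mul (PF.const 4) (pf_powK (PF.add (PF.add hQpf (PF.const m₀)) (PF.const 1)) 2))
      (PF.const _)
  have hf : PF (fun x : List Bool => inst e x (NN x)) := pf_inst (PF.const e) PF.id hNpf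
  refine ⟨_, isPolyTime_of_pf hf, fun x => ?_⟩
  have hlen := le_inst e x (NN x)
  obtain ⟨J, hJ1, hJ2, hJ3⟩ := hgap e (Q e x + m₀ + 1) (by omega)
  have hJlen : 2 ^ J ≤ (inst e x (NN x)).length := hJ3.trans hlen
  have hv : Valid cd (inst e x (NN x)) := by
    refine ⟨J, ?_, hJlen, ?_, ?_, ?_⟩
    · rw [iE_inst]; exact hJ1
    · rw [iE_inst]; exact hm₀ _ (by omega)
    · rw [iE_inst, iX_inst]; omega
    · intro j _ hj
      rw [iE_inst] at hj
      exact hrec j hj
  have h3 := hK _ hv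
  rw [iE_inst, iX_inst, hA1 x _ (lg_mono ?_)] at h3
  · rw [Bool.eq_iff_iff]; exact h3.symm
  · have := htm x
    omega

end Pool.Agent.T9h95.SO
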