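import Pool.Agent.T9h75.SO.Spec

/-!
# Piece pf: polynomial time functions
-/

set_option autoImplicit false

namespace Pool.Agent.T9h95.SO

open Turing Computability N68a2faeb N793a5b8e Pool.Agent.H583R2
open Pool.Agent.T9h49.SC hiding found act stp st upd badN RK RN KK NN Good
open Pool.Agent.T9h21.UB
open Pool.Agent.T9h75.SO

theorem lg_eq (b : ℕ) :
    ((List.range (b + 1)).filter (fun J => decide (min (2 ^ J) (b + 1) ≤ b))).length = lg b := by
  have h1 : lg b ≤ b + 1 := by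
    by_contra hcon
    have h2 : 2 ^ (b + 1) ≤ b := lt_lg.mp (by omega)
    have h3 := Nat.lt_two_pow_self (n := b + 1)
    omega
  rw [filter_range (lg b) (b + 1) h1 _ (fun J => ?_)]
  · simp
  · rw [decide_eq_decide, lt_lg]
    omega

theorem pf_lg {α : Type} [TEnc α] {n : α → ℕ} (hn : PF n) : PF (fun a => lg (n a)) := by
  have h := PF.length (PF.filter (l := fun a => List.range (n a + 1))
    (f := fun a J => decide (min (2 ^ J) (n a + 1) ≤ n a)) (PF.range hn.succ)
    (PF.le (pf_cexp PF.snd (hn.comp PF.fst).succ) (hn.comp PF.fst)))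
  exact h.congr fun a => lg_eq (n a)

theorem pf_own {α : Type} [TEnc α] {n : α → ℕ} (hn : PF n) : PF (fun a => own (n a)) :=
  PF.sub hn (PF.mul (pf_sqrt hn) (pf_sqrt hn))

theorem tm_le_Q (e : ℕ) (x : List Bool) : tm (ix e).2.2 x ≤ Q e x := by
  unfold Q
  refine le_trans ?_ (Nat.le_add_left _ _)
  exact Nat.pow_le_pow_left (by omega) _

theorem tm_yy_le_Q (e : ℕ) (x τ : List Bool) : tm (ix e).2.2 (yy e x τ) ≤ Q e x := by
  unfold Q yy
  refine le_trans ?_ (Nat.le_add_left _ _)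
  show ((eP x (List.take (lg (tm (ix e).2.2 x)) τ)).length + 2) ^ (ix e).2.2 ≤ _
  refine Nat.pow_le_pow_left ?_ _
  rw [eP_length, List.length_take]
  have := min_le_left (lg (tm (ix e).2.2 x)) τ.length
  omega

/-- the capped `Q` -/
def QC (e : ℕ) (x : List Bool) (n : ℕ) : ℕ :=
  if decide (n + 1 ≤ tmC (ix e).2.2 x (n + 1)) = true then n + 1 else
    min (x.length + min ((6 * x.length + 3 + 3 * lg (tmC (ix e).2.2 x (n + 1))) ^ (ix e).2.2)
      (n + 1)) (n + 1)

theorem QC_eq (e : ℕ) (x : List Bool) (n : ℕ) : QC e x n = min (Q e x) (n + 1) := by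
  have h1 := tm_le_Q e x
  unfold QC
  split_ifs with h
  · rw [decide_eq_true_eq] at h
    unfold tmC at h
    have h2 := min_le_left (tm (ix e).2.2 x) (n + 1)
    rw [min_eq_right (by omega)]
  · rw [decide_eq_true_eq] at h
    have h2 : tmC (ix e).2.2 x (n + 1) = tm (ix e).2.2 x := by
      unfold tmC at h ⊢
      omega
    rw [h2]
    unfold Q
    omega

theorem pf : S_pf := by
  refine ⟨pf_lg PF.id, pf_own PF.id, pf_cexp PF.fst PF.snd.succ, ?_, tm_le_Q, tm_yy_le_Q⟩
  have hk : PF (fun p : ℕ × List Bool × ℕ => (ix p.1).2.2) := PF.snd' (PF.snd' (pf_ix PF.fst))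
  have hx : PF (fun p : ℕ × List Bool × ℕ => p.2.1) := PF.fst' PF.snd
  have hn : PF (fun p : ℕ × List Bool × ℕ => p.2.2) := PF.snd' PF.snd
  have hT : PF (fun p : ℕ × List Bool × ℕ => tmC (ix p.1).2.2 p.2.1 (p.2.2 + 1)) :=
    pf_tmC hk hx hn.succ
  have h : PF (fun p : ℕ × List Bool × ℕ => QC p.1 p.2.1 p.2.2) := by
    unfold QC
    exact PF.ite (PF.le hn.succ hT) hn.succ
      (PF.min (PF.add (PF.length hx) (pf_cpow (PF.add (PF.add (PF.mul (PF.const 6)
        (PF.length hx)) (PF.const 3)) (PF.mul (PF.const 3) (pf_lg hT))) hk hn.succ)) hn.succ)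
  exact h.congr fun p => QC_eq p.1 p.2.1 p.2.2

end Pool.Agent.T9h95.SO
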