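import Pool.Agent.T9h75.SO.Spec

/-!
# Pieces sim and nf
-/

set_option autoImplicit false

namespace Pool.Agent.T9h95.SO

open Turing Computability N68a2faeb N793a5b8e Pool.Agent.H583R2
open Pool.Agent.T9h49.SC hiding found act stp st upd badN RK RN KK NN Good
open Pool.Agent.T9h21.UB
open Pool.Agent.T9h75.SO

/-- the known part of the oracle -/
def known (τ z : List Bool) : Bool :=
  (List.range τ.length).any (fun J => (decide (min (2 ^ J) (z.length + 1) = z.length) &&
    z.all (fun b => b)) && τ.getD J false)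

theorem pf_known {α : Type} [TEnc α] {τ z : α → List Bool} (hτ : PF τ) (hz : PF z) :
    PF (fun a => known (τ a) (z a)) := by
  unfold known
  have hz' : PF (fun p : α × ℕ => z p.1) := hz.comp PF.fst
  exact PF.any (l := fun a => List.range (τ a).length)
    (f := fun a J => (decide (min (2 ^ J) ((z a).length + 1) = (z a).length) &&
      (z a).all (fun b => b)) && (τ a).getD J false) (PF.range (PF.length hτ))
    (PF.and (PF.and (PF.natEq (pf_cexp PF.snd (PF.length hz').succ) (PF.length hz'))
      (PF.all (f := fun _ b => b) hz' PF.snd))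
      (PF.listGetD PF.snd (hτ.comp PF.fst) (PF.const false)))

theorem known_eq (t : ℕ → Bool) (N : ℕ) (z : List Bool) (hz : z.length ≤ N) :
    known (pr t (lg N)) z = OO t z := by
  classical
  rw [Bool.eq_iff_iff]
  unfold known OO
  rw [List.any_eq_true, decide_eq_true_eq]
  constructor
  · rintro ⟨J, hJ, h⟩
    rw [Bool.and_eq_true, Bool.and_eq_true, decide_eq_true_eq, List.all_eq_true] at h
    obtain ⟨⟨h1, h2⟩, h3⟩ := h
    rw [List.mem_range, pr_length] at hJ
    rw [pr_getD t hJ] at h3
    refine ⟨J, ?_, h3⟩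
    have h4 : z.length = 2 ^ J := by omega
    rw [← h4]
    exact List.eq_replicate_iff.mpr ⟨rfl, fun b hb => h2 b hb⟩
  · rintro ⟨J, h1, h2⟩
    have h4 : z.length = 2 ^ J := by rw [h1, List.length_replicate]
    have h5 : J < lg N := lt_lg.mpr (h4 ▸ hz)
    refine ⟨J, by rw [List.mem_range, pr_length]; exact h5, ?_⟩
    rw [Bool.and_eq_true, Bool.and_eq_true, decide_eq_true_eq, List.all_eq_true, pr_getD t h5]
    refine ⟨⟨by omega, fun b hb => ?_⟩, h2⟩
    rw [h1] at hb
    exact List.eq_of_mem_replicate hb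

/-- the simulation of the reduction number `r` -/
def VV (r : ℕ) (p : List Bool × List Bool) : Bool :=
  (((ask (qry (tx r).1 (tm (tx r).2.2.2 p.1) p.1) (fun z => some (known p.2 z)))^[
    tm (tx r).2.2.1 p.1] (some [])).bind
      (fun a => some (dcs (tx r).2.1 (tm (tx r).2.2.2 p.1) p.1 a))).getD false

theorem pf_VV (r : ℕ) : PF (VV r) := by
  have htm : ∀ k, PF (fun p : List Bool × List Bool => tm k p.1) := fun k =>
    pf_powK (PF.add (PF.length PF.fst) (PF.const 2)) k
  unfold VV
  refine PF.getD (pf_bind (pf_run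
    (q := fun p : List Bool × List Bool => qry (tx r).1 (tm (tx r).2.2.2 p.1) p.1)
    (o := fun p z => some (known p.2 z)) ?_ ?_ (htm _)) ?_) (PF.const false)
  · exact pf_qry (PF.const _) ((htm _).comp PF.fst) (PF.fst' PF.fst) PF.snd
  · exact PF.mkSome (pf_known (PF.snd' PF.fst) PF.snd)
  · exact PF.mkSome (pf_dcs (PF.const _) ((htm _).comp PF.fst) (PF.fst' PF.fst) PF.snd)

theorem VV_eq (t : ℕ → Bool) (r : ℕ) (v : List Bool) (N : ℕ) (h : tm (tx r).2.2.2 v ≤ N) :
    VV r (v, pr t (lg N)) = ΩT r (OO t) v := by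
  unfold VV
  dsimp only
  rw [ask_total (B := OO t)]
  · rfl
  · intro j _
    congr 1
    apply known_eq
    unfold qry
    rw [List.length_take]
    exact (min_le_left _ _).trans h

theorem sim : S_sim := by
  intro t M hM
  obtain ⟨r, rfl⟩ := exists_ΩT hM
  exact ⟨VV r, (tx r).2.2.2, pf_VV r, fun v N h => (VV_eq t r v N h).symm⟩

theorem nf (hsim : S_sim) : S_nf := by
  classical
  intro t L hL
  obtain ⟨p, M, hM, hLM⟩ := mem_npRel.mp hL
  obtain ⟨V, k0, hV, hVM⟩ := hsim t M hM
  obtain ⟨a, ha⟩ := poly_le p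
  obtain ⟨c, hc⟩ := pow_pow_le (a + 3) k0
  have hu : PF (fun y : List Bool => (uP y).1) := PF.fst' (pf_uP PF.id)
  have hb : PF (fun y : List Bool => p.eval (uP y).1.length) := pf_eval (PF.length hu) p
  set R : List Bool × List Bool → Bool := fun q =>
    decide (q.2.length ≤ p.eval (uP q.1).1.length) && V (eP (uP q.1).1 q.2, (uP q.1).2) with hR
  have hRpf : PF R := by
    have hu1 : PF (fun q : List Bool × List Bool => uP q.1) := pf_uP PF.fst
    exact PF.and (PF.le (PF.length PF.snd) (pf_eval (PF.length (PF.fst' hu1)) p))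
      (hV.comp (PF.pair (pf_eP (PF.fst' hu1) PF.snd) (PF.snd' hu1)))
  refine ⟨fun y => decide (∃ w : List Bool, R (y, w) = true), c, ?_, ?_⟩
  · refine mem_np_of hRpf (b := fun y => p.eval (uP y).1.length)
      (hb.size.mono fun y => by rw [sz_nat]; omega) ?_ ?_
    · intro y w hw
      rw [decide_eq_true_eq]
      exact ⟨w, hw⟩
    · intro y hy
      rw [decide_eq_true_eq] at hy
      obtain ⟨w, hw⟩ := hy
      refine ⟨w, ?_, hw⟩
      simp only [hR, Bool.and_eq_true, decide_eq_true_eq] at hw
      exact hw.1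
  · intro x N hN
    rw [Bool.eq_iff_iff, decide_eq_true_eq, hLM x]
    simp only [hR, Bool.and_eq_true, decide_eq_true_eq, uP_eP]
    refine exists_congr fun w => and_congr_right fun hw => ?_
    rw [hVM (eP x w) N]
    refine le_trans ?_ hN
    refine le_trans (Nat.pow_le_pow_left ?_ _) (hc x.length)
    rw [eP_length]
    have h1 := ha x.length
    have h2 : 1 ≤ (x.length + 2) ^ a := Nat.one_le_pow _ _ (by omega)
    have h3 : (x.length + 2) ^ (a + 3) = (x.length + 2) ^ a * ((x.length + 2) ^ 3) := pow_add _ _ _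
    rw [h3]
    generalize (x.length + 2) ^ a = X at *
    generalize x.length = n at *
    have h4 : 5 * n + 1 + 3 * X ≤ X * (n + 2) ^ 3 := by
      have h5 : (n + 2) ^ 3 = n ^ 3 + 6 * n ^ 2 + 12 * n + 8 := by ring
      rw [h5]
      nlinarith [Nat.mul_le_mul_right (n ^ 3 + 6 * n ^ 2 + 12 * n + 5) h2, Nat.zero_le (n ^ 3),
        Nat.zero_le (n ^ 2)]
    omega

end Pool.Agent.T9h95.SO
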